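import Mathlib
import Pool.Agent.TH542.J4948
import Pool.Agent.TH113.J4949.Excessive

/-!
# Littlewood functions: a group is amenable if and only if `T₁(G) ⊆ ℓ^p(G)` for all `p > 1`
-/

set_option autoImplicit false

namespace Pool.Agent.TH28.LE

open Finset

variable {G : Type} [Group G]

/-- `f` is a Littlewood function: `f(x⁻¹ y) = f₁(x, y) + f₂(x, y)` with bounded row sums of `f₁` and
bounded column sums of `f₂`. -/
def Littlewood (f : G → ℂ) : Prop :=
  ∃ (f₁ f₂ : G → G → ℂ) (C : ℝ), (∀ x y, f (x⁻¹ * y) = f₁ x y + f₂ x y) ∧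
    (∀ (x : G) (S : Finset G), ∑ y ∈ S, ‖f₁ x y‖ ≤ C) ∧
    (∀ (y : G) (S : Finset G), ∑ x ∈ S, ‖f₂ x y‖ ≤ C)

/-! ### Convolution of finitely supported functions -/

/-- convolution -/
noncomputable def conv (F F' : G →₀ ℝ) : G →₀ ℝ :=
  F.sum fun a r => r • F'.mapDomain (fun b => a * b)

/-- the sum of `F g * k g` -/
noncomputable def lam (k : G → ℝ) : (G →₀ ℝ) →ₗ[ℝ] ℝ := Finsupp.linearCombination ℝ k

theorem lam_apply (k : G → ℝ) (F : G →₀ ℝ) : lam k F = ∑ g ∈ F.support, F g * k g := by
  rw [lam, Finsupp.linearCombination_apply, Finsupp.sum]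
  rfl

theorem lam_conv (k : G → ℝ) (F F' : G →₀ ℝ) :
    lam k (conv F F') = ∑ a ∈ F.support, F a * lam (fun b => k (a * b)) F' := by
  rw [conv, Finsupp.sum, map_sum]
  refine Finset.sum_congr rfl fun a _ => ?_
  rw [map_smul, smul_eq_mul]
  congr 1
  rw [lam, Finsupp.linearCombination_mapDomain]
  rfl

theorem conv_nonneg {F F' : G →₀ ℝ} (hF : ∀ g, 0 ≤ F g) (hF' : ∀ g, 0 ≤ F' g) (g : G) :
    0 ≤ conv F F' g := by
  classical
  rw [conv, Finsupp.sum, Finsupp.finsetSum_apply]
  refine Finset.sum_nonneg fun a _ => ?_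
  rw [Finsupp.smul_apply, smul_eq_mul]
  refine mul_nonneg (hF a) ?_
  rw [Finsupp.mapDomain, Finsupp.sum, Finsupp.finsetSum_apply]
  refine Finset.sum_nonneg fun b _ => ?_
  rw [Finsupp.single_apply]
  split_ifs
  · exact hF' b
  · exact le_rfl

theorem conv_card (F F' : G →₀ ℝ) :
    (conv F F').support.card ≤ F.support.card * F'.support.card := by
  classical
  refine (Finset.card_le_card Finsupp.support_sum).trans ?_
  refine Finset.card_biUnion_le_card_mul _ _ _ fun a _ => ?_
  refine (Finset.card_le_card (Finsupp.support_smul)).trans ?_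
  refine (Finset.card_le_card Finsupp.mapDomain_support).trans ?_
  exact Finset.card_image_le

theorem lam_mono {F : G →₀ ℝ} (hF : ∀ g, 0 ≤ F g) {k k' : G → ℝ} (h : ∀ g, k g ≤ k' g) :
    lam k F ≤ lam k' F := by
  rw [lam_apply, lam_apply]
  exact Finset.sum_le_sum fun g _ => mul_le_mul_of_nonneg_left (h g) (hF g)

theorem sum_le_lam {F : G →₀ ℝ} (hF : ∀ g, 0 ≤ F g) {k : G → ℝ} (h : ∀ g, 0 ≤ k g)
    (S : Finset G) : ∑ g ∈ S, F g * k g ≤ lam k F := by
  classical
  rw [lam_apply]
  have h1 : ∑ g ∈ S, F g * k g ≤ ∑ g ∈ S ∪ F.support, F g * k g :=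
    Finset.sum_le_sum_of_subset_of_nonneg Finset.subset_union_left
      fun g _ _ => mul_nonneg (hF g) (h g)
  refine h1.trans (le_of_eq ?_)
  refine (Finset.sum_subset Finset.subset_union_right fun g _ hg => ?_).symm
  rw [Finsupp.notMem_support_iff.1 hg, zero_mul]

/-- the powers of a contractive probability measure -/
theorem powers {F : G →₀ ℝ} (hF : ∀ g, 0 ≤ F g) (hsym : ∀ g, F g⁻¹ = F g)
    (h1 : lam (fun _ => 1) F = 1) {c : ℝ} (hc : 0 ≤ c) {h : G → ℝ} (hh : ∀ s, 0 < h s)
    (hcon : ∀ s, lam (fun g => h (s * g)) F ≤ c * h s) (n : ℕ) :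
    ∃ P : G →₀ ℝ, (∀ g, 0 ≤ P g) ∧ lam (fun _ => 1) P = 1 ∧
      P.support.card ≤ F.support.card ^ n ∧
      (∀ s, lam (fun g => h (s * g)) P ≤ c ^ n * h s) ∧
      ∀ s, lam (fun g => h (s * g⁻¹)) P ≤ c ^ n * h s := by
  classical
  have hcon' : ∀ s, lam (fun g => h (s * g⁻¹)) F ≤ c * h s := by
    intro s
    refine le_trans (le_of_eq ?_) (hcon s)
    rw [lam_apply, lam_apply]
    refine Finset.sum_bij' (fun g _ => g⁻¹) (fun g _ => g⁻¹) ?_ ?_ ?_ ?_ ?_
    · intro g hg
      rw [Finsupp.mem_support_iff] at hg ⊢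
      rwa [hsym]
    · intro g hg
      rw [Finsupp.mem_support_iff] at hg ⊢
      rwa [hsym]
    · intro g _
      exact inv_inv g
    · intro g _
      exact inv_inv g
    · intro g _
      rw [hsym]
  induction n with
  | zero =>
    refine ⟨Finsupp.single 1 1, ?_, ?_, ?_, ?_, ?_⟩
    · intro g
      rw [Finsupp.single_apply]
      split_ifs <;> norm_num
    · simp [lam]
    · rw [pow_zero]
      refine (Finset.card_le_card Finsupp.support_single_subset).trans ?_
      simp
    · intro s
      simp [lam]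
    · intro s
      simp [lam]
  | succ n ih =>
    obtain ⟨P, hP, hP1, hPc, hPr, hPl⟩ := ih
    refine ⟨conv F P, conv_nonneg hF hP, ?_, ?_, ?_, ?_⟩
    · rw [lam_conv]
      simp only [hP1]
      have := h1
      rwa [lam_apply] at this
    · refine (conv_card F P).trans ?_
      rw [pow_succ, mul_comm]
      exact Nat.mul_le_mul_right _ hPc
    · intro s
      rw [lam_conv]
      calc ∑ a ∈ F.support, F a * lam (fun b => h (s * (a * b))) P
          ≤ ∑ a ∈ F.support, F a * (c ^ n * h (s * a)) := by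
            refine Finset.sum_le_sum fun a _ => mul_le_mul_of_nonneg_left ?_ (hF a)
            have := hPr (s * a)
            simpa only [mul_assoc] using this
        _ = c ^ n * lam (fun g => h (s * g)) F := by
            rw [lam_apply, Finset.mul_sum]
            exact Finset.sum_congr rfl fun a _ => by ring
        _ ≤ c ^ n * (c * h s) := mul_le_mul_of_nonneg_left (hcon s) (pow_nonneg hc n)
        _ = c ^ (n + 1) * h s := by ring
    · intro s
      rw [lam_conv]
      calc ∑ a ∈ F.support, F a * lam (fun b => h (s * (a * b)⁻¹)) P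
          = lam (fun b => lam (fun a => h (s * b⁻¹ * a⁻¹)) F) P := by
            simp only [lam_apply, mul_inv_rev, Finset.mul_sum, mul_assoc]
            rw [Finset.sum_comm]
            exact Finset.sum_congr rfl fun b _ => Finset.sum_congr rfl fun a _ => by ring
        _ ≤ lam (fun b => c * h (s * b⁻¹)) P := lam_mono hP fun b => hcon' (s * b⁻¹)
        _ = c * lam (fun b => h (s * b⁻¹)) P := by
            rw [lam_apply, lam_apply, Finset.mul_sum]
            exact Finset.sum_congr rfl fun a _ => by ring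
        _ ≤ c * (c ^ n * h s) := mul_le_mul_of_nonneg_left (hPl s) hc
        _ = c ^ (n + 1) * h s := by ring

end Pool.Agent.TH28.LE
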