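import Mathlib
import Pool.Agent.TH28.LE.Lit

/-!
# Littlewood functions and amenability
-/

set_option autoImplicit false

namespace Pool.Agent.TH28.LE

open Finset

variable {G : Type} [Group G]

theorem sum_tsum_le (S : Finset G) (a : ℕ → G → ℝ) (ha : ∀ n y, 0 ≤ a n y)
    (hS : ∀ n, ∑ y ∈ S, a n y ≤ (1 / 4) ^ n) : ∑ y ∈ S, ∑' n : ℕ, (2 : ℝ) ^ n * a n y ≤ 2 := by
  have hb : ∀ y ∈ S, ∀ n, (2 : ℝ) ^ n * a n y ≤ (1 / 2) ^ n := by
    intro y hy n
    have h1 : a n y ≤ (1 / 4) ^ n :=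
      (Finset.single_le_sum (f := fun y => a n y) (fun i _ => ha n i) hy).trans (hS n)
    calc (2 : ℝ) ^ n * a n y ≤ 2 ^ n * (1 / 4) ^ n := mul_le_mul_of_nonneg_left h1 (by positivity)
      _ = (1 / 2) ^ n := by rw [← mul_pow]; norm_num
  have hs : ∀ y ∈ S, Summable fun n : ℕ => (2 : ℝ) ^ n * a n y := fun y hy =>
    Summable.of_nonneg_of_le (fun n => mul_nonneg (by positivity) (ha n y)) (hb y hy)
      summable_geometric_two
  rw [← Summable.tsum_finsetSum hs]
  refine le_trans (Summable.tsum_le_tsum (fun n => ?_) (summable_sum hs) summable_geometric_two)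
    tsum_geometric_two.le
  rw [← Finset.mul_sum]
  calc (2 : ℝ) ^ n * ∑ y ∈ S, a n y ≤ 2 ^ n * (1 / 4) ^ n :=
        mul_le_mul_of_nonneg_left (hS n) (by positivity)
    _ = (1 / 2) ^ n := by rw [← mul_pow]; norm_num

/-- For a group which is not amenable there are `p > 1` and a Littlewood function that is not in
`ℓ^p`. -/
theorem exists_not_summable (hG : ¬ Pool.Agent.TH278.DX.Amenable G) :
    ∃ p : ℝ, 1 < p ∧ ∃ f : G → ℂ, Littlewood f ∧ ¬ Summable fun g => ‖f g‖ ^ p := by
  classical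
  obtain ⟨F, T, hF, hsym, hF1, hT, hTF⟩ :=
    Pool.Agent.TH542.J4948.kesten hG (1 / 8) (by norm_num)
  obtain ⟨h, hh, hcon⟩ :=
    Pool.Agent.TH113.J4949.excessive F hF hsym T (1 / 8) (by norm_num) hT hTF
  have h1 : lam (fun _ => 1) F = 1 := by
    rw [lam_apply]
    simpa [Finsupp.sum] using hF1
  have hcon' : ∀ s, lam (fun g => h (s * g)) F ≤ (1 / 4) * h s := by
    intro s
    rw [lam_apply]
    have := hcon s
    rw [Finsupp.sum] at this
    linarith
  choose P hP hP1 hPc hPr hPl using powers hF hsym h1 (by norm_num : (0 : ℝ) ≤ 1 / 4) hh hcon'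
  -- rows
  have hrow : ∀ n s (S : Finset G),
      ∑ v ∈ S, (if h s ≤ h v then P n (s⁻¹ * v) else 0) ≤ (1 / 4) ^ n := by
    intro n s S
    calc ∑ v ∈ S, (if h s ≤ h v then P n (s⁻¹ * v) else 0)
        ≤ ∑ v ∈ S, P n (s⁻¹ * v) * (h v / h s) := by
          refine Finset.sum_le_sum fun v _ => ?_
          split_ifs with hc
          · exact le_mul_of_one_le_right (hP n _) ((one_le_div (hh s)).2 hc)
          · exact mul_nonneg (hP n _) (div_nonneg (hh v).le (hh s).le)
      _ = ∑ g ∈ S.image (fun v => s⁻¹ * v), P n g * (h (s * g) / h s) := by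
          rw [Finset.sum_image fun x _ y _ hxy => mul_left_cancel hxy]
          refine Finset.sum_congr rfl fun v _ => ?_
          rw [mul_inv_cancel_left]
      _ ≤ lam (fun g => h (s * g) / h s) (P n) :=
          sum_le_lam (hP n) (fun g => div_nonneg (hh _).le (hh s).le) _
      _ = lam (fun g => h (s * g)) (P n) / h s := by
          rw [lam_apply, lam_apply, Finset.sum_div]
          exact Finset.sum_congr rfl fun g _ => by ring
      _ ≤ (1 / 4) ^ n := by
          rw [div_le_iff₀ (hh s)]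
          exact hPr n s
  have hcol : ∀ n v (S : Finset G),
      ∑ s ∈ S, (if h s ≤ h v then 0 else P n (s⁻¹ * v)) ≤ (1 / 4) ^ n := by
    intro n v S
    calc ∑ s ∈ S, (if h s ≤ h v then 0 else P n (s⁻¹ * v))
        ≤ ∑ s ∈ S, P n (s⁻¹ * v) * (h s / h v) := by
          refine Finset.sum_le_sum fun s _ => ?_
          split_ifs with hc
          · exact mul_nonneg (hP n _) (div_nonneg (hh s).le (hh v).le)
          · exact le_mul_of_one_le_right (hP n _) ((one_le_div (hh v)).2 (not_le.1 hc).le)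
      _ = ∑ g ∈ S.image (fun s => s⁻¹ * v), P n g * (h (v * g⁻¹) / h v) := by
          rw [Finset.sum_image fun x _ y _ hxy => inv_injective (mul_right_cancel hxy)]
          refine Finset.sum_congr rfl fun s _ => ?_
          rw [mul_inv_rev, inv_inv, mul_inv_cancel_left]
      _ ≤ lam (fun g => h (v * g⁻¹) / h v) (P n) :=
          sum_le_lam (hP n) (fun g => div_nonneg (hh _).le (hh v).le) _
      _ = lam (fun g => h (v * g⁻¹)) (P n) / h v := by
          rw [lam_apply, lam_apply, Finset.sum_div]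
          exact Finset.sum_congr rfl fun g _ => by ring
      _ ≤ (1 / 4) ^ n := by
          rw [div_le_iff₀ (hh v)]
          exact hPl n v
  have hpt : ∀ n g, P n g ≤ (1 / 4) ^ n := by
    intro n g
    by_cases hc : h 1 ≤ h g
    · have := hrow n 1 {g}
      simpa [hc] using this
    · have := hcol n g {1}
      simpa [hc] using this
  have hsm : ∀ g, Summable fun n : ℕ => (2 : ℝ) ^ n * P n g := fun g => by
    refine Summable.of_nonneg_of_le (fun n => mul_nonneg (by positivity) (hP n g)) (fun n => ?_)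
      summable_geometric_two
    calc (2 : ℝ) ^ n * P n g ≤ 2 ^ n * (1 / 4) ^ n :=
          mul_le_mul_of_nonneg_left (hpt n g) (by positivity)
      _ = (1 / 2) ^ n := by rw [← mul_pow]; norm_num
  set fr : G → ℝ := fun g => ∑' n : ℕ, (2 : ℝ) ^ n * P n g with hfr
  have hfr0 : ∀ g, 0 ≤ fr g := fun g => tsum_nonneg fun n => mul_nonneg (by positivity) (hP n g)
  have hfrle : ∀ n g, (2 : ℝ) ^ n * P n g ≤ fr g := fun n g =>
    (hsm g).le_tsum n fun j _ => mul_nonneg (by positivity) (hP j g)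
  have hnorm : ∀ g, ‖(fr g : ℂ)‖ = fr g := fun g => by
    rw [Complex.norm_real, Real.norm_of_nonneg (hfr0 g)]
  -- the Littlewood function
  have hL : Littlewood fun g => (fr g : ℂ) := by
    refine ⟨fun x y => if h x ≤ h y then (fr (x⁻¹ * y) : ℂ) else 0,
      fun x y => if h x ≤ h y then 0 else (fr (x⁻¹ * y) : ℂ), 2, ?_, ?_, ?_⟩
    · intro x y
      simp only
      split_ifs <;> simp
    · intro x S
      refine le_trans (le_of_eq ?_) (sum_tsum_le S
        (fun n y => if h x ≤ h y then P n (x⁻¹ * y) else 0) (fun n y => ?_) fun n => hrow n x S)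
      · refine Finset.sum_congr rfl fun y _ => ?_
        by_cases hc : h x ≤ h y
        · simp only [hc, if_true, hnorm]
          rfl
        · simp [hc]
      · show 0 ≤ (if h x ≤ h y then P n (x⁻¹ * y) else 0)
        split_ifs
        · exact hP n _
        · exact le_rfl
    · intro y S
      refine le_trans (le_of_eq ?_) (sum_tsum_le S
        (fun n x => if h x ≤ h y then 0 else P n (x⁻¹ * y)) (fun n x => ?_) fun n => hcol n y S)
      · refine Finset.sum_congr rfl fun x _ => ?_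
        by_cases hc : h x ≤ h y
        · simp [hc]
        · simp only [hc, if_false, hnorm]
          rfl
      · show 0 ≤ (if h x ≤ h y then 0 else P n (x⁻¹ * y))
        split_ifs
        · exact le_rfl
        · exact hP n _
  -- the exponent
  set N : ℝ := (F.support.card : ℝ) with hN
  have hN1 : 1 ≤ N := by
    have h2 : F.support.Nonempty := by
      by_contra hne
      rw [Finset.not_nonempty_iff_eq_empty] at hne
      rw [lam_apply, hne] at h1
      simp at h1
    have h3 := Finset.card_pos.2 h2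
    rw [hN]
    exact_mod_cast h3
  have hlog : 0 < Real.log (N + 1) := Real.log_pos (by linarith)
  obtain ⟨ε, hε, hεN⟩ : ∃ ε : ℝ, 0 < ε ∧ N ^ ε ≤ 2 := by
    refine ⟨Real.log 2 / Real.log (N + 1), div_pos (Real.log_pos (by norm_num)) hlog, ?_⟩
    calc N ^ (Real.log 2 / Real.log (N + 1)) ≤ (N + 1) ^ (Real.log 2 / Real.log (N + 1)) :=
          Real.rpow_le_rpow (by linarith) (by linarith)
            (div_nonneg (Real.log_nonneg (by norm_num)) hlog.le)
      _ = 2 := by
          rw [Real.rpow_def_of_pos (by linarith), mul_div_cancel₀ _ hlog.ne',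
            Real.exp_log (by norm_num)]
  refine ⟨1 + ε, by linarith, fun g => (fr g : ℂ), hL, fun hsum => ?_⟩
  simp only [hnorm] at hsum
  have hlow : ∀ n : ℕ, ((2 : ℝ) ^ ε) ^ n ≤ ∑' g, fr g ^ (1 + ε) := by
    intro n
    have hc1 : 1 ≤ (((P n).support.card : ℝ)) ^ ε * ∑ g ∈ (P n).support, P n g ^ (1 + ε) := by
      have h2 := Real.rpow_sum_le_const_mul_sum_rpow_of_nonneg (s := (P n).support)
        (f := fun g => P n g) (p := 1 + ε) (by linarith) fun g _ => hP n g
      have h3 : ∑ g ∈ (P n).support, P n g = 1 := by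
        have := hP1 n
        rw [lam_apply] at this
        simpa using this
      rw [h3, Real.one_rpow, add_sub_cancel_left] at h2
      exact h2
    have hcard : (((P n).support.card : ℝ)) ^ ε ≤ 2 ^ n := by
      calc (((P n).support.card : ℝ)) ^ ε ≤ (N ^ n) ^ ε := by
            refine Real.rpow_le_rpow (by positivity) ?_ hε.le
            rw [hN]
            exact_mod_cast hPc n
        _ = (N ^ ε) ^ n := by
            rw [← Real.rpow_natCast, ← Real.rpow_mul (by linarith), mul_comm,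
              Real.rpow_mul (by linarith), Real.rpow_natCast]
        _ ≤ 2 ^ n := pow_le_pow_left₀ (by positivity) hεN n
    have hpos : 0 ≤ ∑ g ∈ (P n).support, P n g ^ (1 + ε) :=
      Finset.sum_nonneg fun g _ => Real.rpow_nonneg (hP n g) _
    have h4 : 1 ≤ (2 : ℝ) ^ n * ∑ g ∈ (P n).support, P n g ^ (1 + ε) :=
      hc1.trans (mul_le_mul_of_nonneg_right hcard hpos)
    calc ((2 : ℝ) ^ ε) ^ n = ((2 : ℝ) ^ n) ^ ε := by
          rw [← Real.rpow_natCast, ← Real.rpow_mul (by norm_num), mul_comm,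
            Real.rpow_mul (by norm_num), Real.rpow_natCast]
      _ ≤ ((2 : ℝ) ^ n) ^ ε * (2 ^ n * ∑ g ∈ (P n).support, P n g ^ (1 + ε)) :=
          le_mul_of_one_le_right (by positivity) h4
      _ = ∑ g ∈ (P n).support, (2 ^ n * P n g) ^ (1 + ε) := by
          rw [← mul_assoc, Finset.mul_sum]
          refine Finset.sum_congr rfl fun g _ => ?_
          have e1 : ((2 : ℝ) ^ n) ^ (1 + ε) = 2 ^ n * (2 ^ n) ^ ε := by
            rw [Real.rpow_add (by positivity), Real.rpow_one]
          rw [Real.mul_rpow (by positivity) (hP n g), e1]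
          ring
      _ ≤ ∑ g ∈ (P n).support, fr g ^ (1 + ε) := by
          refine Finset.sum_le_sum fun g _ => ?_
          exact Real.rpow_le_rpow (mul_nonneg (by positivity) (hP n g)) (hfrle n g) (by linarith)
      _ ≤ ∑' g, fr g ^ (1 + ε) :=
          hsum.sum_le_tsum _ fun g _ => Real.rpow_nonneg (hfr0 g) _
  have h2ε : 1 < (2 : ℝ) ^ ε := Real.one_lt_rpow (by norm_num) hε
  obtain ⟨n, hn⟩ := pow_unbounded_of_one_lt (∑' g, fr g ^ (1 + ε)) h2ε
  exact absurd (hlow n) (not_le.2 hn)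

/-- On an amenable group all Littlewood functions are summable. -/
theorem summable_of_amenable (hG : Pool.Agent.TH278.DX.Amenable G) {f : G → ℂ}
    (hf : Littlewood f) : Summable fun g => ‖f g‖ := by
  classical
  obtain ⟨f₁, f₂, C, hf, h1, h2⟩ := hf
  obtain ⟨m, madd, msmul, mpos, mone, minv⟩ := hG
  have hmono : ∀ u v : G → ℝ, (∃ C, ∀ x, |u x| ≤ C) → (∃ C, ∀ x, |v x| ≤ C) →
      (∀ x, u x ≤ v x) → m u ≤ m v := by
    rintro u v ⟨a, ha⟩ ⟨b, hb⟩ huv
    have e1 := msmul (-1) u ⟨a, ha⟩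
    have e2 := madd v (fun x => -1 * u x) ⟨b, hb⟩ ⟨a, fun x => by simpa using ha x⟩
    have e3 := mpos (fun x => v x + -1 * u x) ⟨b + a, fun x => by
      have := abs_add_le (v x) (-1 * u x)
      have h3 : |-1 * u x| ≤ a := by simpa using ha x
      linarith [hb x]⟩ fun x => by linarith [huv x]
    rw [e2, e1] at e3
    linarith
  have hconst : ∀ c : ℝ, m (fun _ => c) = c := by
    intro c
    have := msmul c (fun _ => 1) ⟨1, fun x => by simp⟩
    simpa [mone] using this
  have hsumm : ∀ (E : Finset G) (u : G → G → ℝ), (∀ g, ∃ C, ∀ x, |u g x| ≤ C) →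
      (∃ C, ∀ x, |∑ g ∈ E, u g x| ≤ C) ∧ m (fun x => ∑ g ∈ E, u g x) = ∑ g ∈ E, m (u g) := by
    intro E u hu
    induction E using Finset.induction_on with
    | empty => exact ⟨⟨0, fun x => by simp⟩, by simpa using hconst 0⟩
    | insert a E ha ih =>
      obtain ⟨⟨c, hc⟩, ih2⟩ := ih
      obtain ⟨b, hb⟩ := hu a
      refine ⟨⟨b + c, fun x => ?_⟩, ?_⟩
      · rw [Finset.sum_insert ha]
        exact (abs_add_le _ _).trans (add_le_add (hb x) (hc x))
      · simp only [Finset.sum_insert ha]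
        rw [← ih2]
        exact madd (u a) (fun x => ∑ g ∈ E, u g x) ⟨b, hb⟩ ⟨c, hc⟩
  have hC : 0 ≤ C := by simpa using h1 1 ∅
  have hf2 : ∀ x y, ‖f₂ x y‖ ≤ C := fun x y => by simpa using h2 y {x}
  refine summable_of_sum_le (c := 2 * C) (fun g => norm_nonneg _) fun E => ?_
  -- the functions
  set φ : G → G → ℝ := fun g x => ‖f₂ x⁻¹ (x⁻¹ * g)‖ with hφ
  set ψ : G → G → ℝ := fun g x => ‖f₂ (x⁻¹ * g⁻¹) x⁻¹‖ with hψ
  have hφb : ∀ g, ∃ C, ∀ x, |φ g x| ≤ C := fun g => ⟨C, fun x => by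
    rw [hφ, abs_of_nonneg (norm_nonneg _)]
    exact hf2 _ _⟩
  have hψb : ∀ g, ∃ C, ∀ x, |ψ g x| ≤ C := fun g => ⟨C, fun x => by
    rw [hψ, abs_of_nonneg (norm_nonneg _)]
    exact hf2 _ _⟩
  have hφψ : ∀ g, m (φ g) = m (ψ g) := by
    intro g
    rw [← minv g⁻¹ (φ g) (hφb g)]
    congr 1
    funext x
    simp only [hφ, hψ, inv_inv, mul_inv_rev, inv_mul_cancel_right]
  have hpt : ∀ x, ∑ g ∈ E, ‖f g‖ - C ≤ ∑ g ∈ E, φ g x := by
    intro x
    have e1 : ∀ g, ‖f g‖ ≤ ‖f₁ x⁻¹ (x⁻¹ * g)‖ + φ g x := by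
      intro g
      have e2 : f g = f₁ x⁻¹ (x⁻¹ * g) + f₂ x⁻¹ (x⁻¹ * g) := by
        rw [← hf]
        simp
      rw [e2]
      exact norm_add_le _ _
    have e3 : ∑ g ∈ E, ‖f₁ x⁻¹ (x⁻¹ * g)‖ ≤ C := by
      have := h1 x⁻¹ (E.image fun g => x⁻¹ * g)
      rwa [Finset.sum_image fun a _ b _ hab => mul_left_cancel hab] at this
    have e4 := Finset.sum_le_sum fun g (_ : g ∈ E) => e1 g
    rw [Finset.sum_add_distrib] at e4
    linarith
  have k1 := hmono (fun _ => ∑ g ∈ E, ‖f g‖ - C) (fun x => ∑ g ∈ E, φ g x)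
    ⟨|∑ g ∈ E, ‖f g‖ - C|, fun x => le_rfl⟩ (hsumm E φ hφb).1 hpt
  rw [hconst, (hsumm E φ hφb).2, Finset.sum_congr rfl fun g _ => hφψ g,
    ← (hsumm E ψ hψb).2] at k1
  have k2 := hmono (fun x => ∑ g ∈ E, ψ g x) (fun _ => C) (hsumm E ψ hψb).1
    ⟨|C|, fun x => le_rfl⟩ fun x => by
      have := h2 x⁻¹ (E.image fun g => x⁻¹ * g⁻¹)
      rwa [Finset.sum_image fun a _ b _ hab => inv_injective (mul_left_cancel hab)] at this
  rw [hconst] at k2
  linarith

end Pool.Agent.TH28.LE
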